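import Pool.Agent.W147.LF.Stm2

/-! Key lemma, squarefree case. -/

open Polynomial Pool.Agent.W147.LF

namespace Pool.Agent.W306.LF

theorem two_ne_K (K : Type) [Field K] [Fintype K] (ho : Odd (Fintype.card K)) : (2 : K) ≠ 0 := by
  intro h2
  obtain ⟨k, hk⟩ := ho
  have h := FiniteField.cast_card_eq_zero K
  rw [hk] at h
  push_cast at h
  rw [h2, zero_mul, zero_add] at h
  exact one_ne_zero h

theorem deg_Y_lt (K : Type) [Field K] (s : K[X]) (e : ℕ) (hs : s.natDegree < e) (he : 1 < e) :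
    (Y s).natDegree < e := by
  unfold Y
  refine lt_of_le_of_lt (natDegree_add_le _ _) ?_
  refine max_lt ?_ ?_
  · rw [natDegree_X]; exact he
  · refine lt_of_le_of_lt (natDegree_C_mul_le _ _) ?_
    exact lt_of_le_of_lt (natDegree_derivative_le s) (by omega)

theorem der_u (K : Type) [Field K] [Fintype K] (h2 : (2 : K) ≠ 0) (s V E : K[X])
    (hE : derivative E = 0) :
    derivative ((X + E) ^ 2 + E ^ 4 + V ^ Fintype.card K + s) = C 2 * (Y s + E) := by
  have hq : ((Fintype.card K : ℕ) : K) = 0 := FiniteField.cast_card_eq_zero K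
  have h21 : C (2 : K) * C (2⁻¹ : K) = 1 := by
    rw [← C_mul, mul_inv_cancel₀ h2, C_1]
  simp only [derivative_add, derivative_pow, hE, derivative_X, hq, C_0]
  unfold Y
  have : C (2 : K) * (X + C (2⁻¹ : K) * derivative s + E)
      = C 2 * (X + E) + (C (2 : K) * C (2⁻¹ : K)) * derivative s := by ring
  rw [this, h21]
  simp

theorem dvd_u (K : Type) [Field K] [Fintype K] (s V E : K[X]) :
    (Y s + E) ∣ ((X + E) ^ 2 + E ^ 4 + V ^ Fintype.card K + s) -
      (V ^ Fintype.card K + H s) := by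
  refine ⟨(X + E - C (2⁻¹ : K) * derivative s) + (E - Y s) * (E ^ 2 + Y s ^ 2), ?_⟩
  unfold H
  have hY : Y s = X + C (2⁻¹ : K) * derivative s := rfl
  generalize hz : C (2⁻¹ : K) * derivative s = z at *
  have hX : X = Y s - z := by rw [hY]; ring
  rw [hX]
  ring

theorem monic_u (K : Type) [Field K] (s W E : K[X]) (e : ℕ) (hE : E.Monic)
    (hEd : E.natDegree = e) (hs : s.natDegree < e) (hW : W.natDegree < e) (he : 1 < e) :
    ((X + E) ^ 2 + E ^ 4 + W + s).Monic ∧
      ((X + E) ^ 2 + E ^ 4 + W + s).natDegree = 4 * e := by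
  have hE4 : (E ^ 4).Monic := hE.pow 4
  have hE4d : (E ^ 4).natDegree = 4 * e := by rw [hE.natDegree_pow, hEd]
  have hXE : (X + E).natDegree ≤ e := by
    refine le_trans (natDegree_add_le _ _) ?_
    rw [natDegree_X, hEd]
    exact max_le he.le le_rfl
  have hXE2 : ((X + E) ^ 2).natDegree ≤ 2 * e :=
    le_trans natDegree_pow_le (Nat.mul_le_mul_left 2 hXE)
  have hrest : ((X + E) ^ 2 + W + s).natDegree < (E ^ 4).natDegree := by
    rw [hE4d]
    refine lt_of_le_of_lt (natDegree_add_le _ _) (max_lt ?_ (by omega))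
    refine lt_of_le_of_lt (natDegree_add_le _ _) (max_lt (by omega) (by omega))
  have heq : (X + E) ^ 2 + E ^ 4 + W + s = E ^ 4 + ((X + E) ^ 2 + W + s) := by ring
  have hdeg : ((X + E) ^ 2 + W + s).degree < (E ^ 4).degree :=
    degree_lt_degree hrest
  rw [heq]
  refine ⟨hE4.add_of_left hdeg, ?_⟩
  rw [natDegree_add_eq_left_of_natDegree_lt hrest, hE4d]

theorem cop_unit (K : Type) [Field K] (u : K[X]) (c : K) (hc : c ≠ 0) :
    IsCoprime u (C c) :=
  ⟨0, C c⁻¹, by rw [zero_mul, zero_add, ← C_mul, inv_mul_cancel₀ hc, C_1]⟩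

theorem t_Key2 (hmL : S_RmulL) (hmR : S_RmulR) (hc : S_Rcongr) (hsw : S_Rswap) (hne : S_Rne)
    (hfr : S_Rfrob) (hRC : S_RC) (hP : S_Pel) : S_Key2 := by
  intro K _ _ hodd s V N Qt f E0 e hQt hf hfi hQN hVH hcop hVe hse he
  have h2 : (2 : K) ≠ 0 := two_ne_K K hodd
  have hρ0 : R Qt (Y s + E0) ≠ 0 := (hne K Qt (Y s + E0) hQt.ne_zero).2 hcop
  have h2L : algebraMap K (AlgebraicClosure K) 2 ≠ 0 := by
    rw [Ne, map_eq_zero]; exact h2
  obtain ⟨A, hAdef⟩ : ∃ A : AlgebraicClosure K, A =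
      (algebraMap K (AlgebraicClosure K) 2) ^ (4 * e) * ((-1) ^ (4 * e * e) *
        ((-1) ^ (e * (f * Qt).natDegree) * R Qt (Y s + E0))) := ⟨_, rfl⟩
  have hA0 : A ≠ 0 := by
    rw [hAdef]
    refine mul_ne_zero (pow_ne_zero _ h2L) (mul_ne_zero (pow_ne_zero _ (by simp))
      (mul_ne_zero (pow_ne_zero _ (by simp)) hρ0))
  obtain ⟨B, hBdef⟩ : ∃ B : AlgebraicClosure K, B =
      ((-1) ^ ((4 * e) * ((4 * e) - 1) / 2)) ^ hq K * (-1) ^ (4 * e) := ⟨_, rfl⟩
  have hB0 : B ≠ 0 := by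
    rw [hBdef]
    exact mul_ne_zero (pow_ne_zero _ (pow_ne_zero _ (by simp))) (pow_ne_zero _ (by simp))
  refine ⟨A ^ hq K * B⁻¹, mul_ne_zero (pow_ne_zero _ hA0) (inv_ne_zero hB0), ?_⟩
  intro E c hc0 hEm hEd hE' hNE hfE
  obtain ⟨hum, hud⟩ := monic_u K s (V ^ Fintype.card K) E e hEm hEd hse hVe he
  have hder := der_u K h2 s V E hE'
  have hdvd := dvd_u K s V E
  obtain ⟨u, hu⟩ : ∃ u : K[X], u = (X + E) ^ 2 + E ^ 4 + V ^ Fintype.card K + s := ⟨_, rfl⟩
  rw [← hu] at hum hud hder hdvd ⊢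
  -- P monic of degree e
  have hYd := deg_Y_lt K s e hse he
  have hPm : (Y s + E).Monic := by
    rw [add_comm]
    refine hEm.add_of_left (degree_lt_degree ?_)
    rw [hEd]; exact hYd
  have hPd : (Y s + E).natDegree = e := by
    rw [add_comm, natDegree_add_eq_left_of_natDegree_lt (by rw [hEd]; exact hYd), hEd]
  obtain ⟨P, hPdef⟩ : ∃ P : K[X], P = Y s + E := ⟨_, rfl⟩
  rw [← hPdef] at hPm hPd hder hdvd hfE
  -- coprimality
  have hcf : IsCoprime f P := by
    obtain ⟨w, hw⟩ := hfE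
    have h1 : P = C c + f * w := by rw [← hw]; ring
    rw [h1]
    have h3 : IsCoprime f (C c) :=
      cop_unit K f c hc0
    exact h3.add_mul_left_right w
  have hQE : Qt ∣ P - (Y s + E0) := by
    have h1 : P - (Y s + E0) = E - E0 := by rw [hPdef]; ring
    rw [h1]
    exact hQN.trans hNE
  have hcQ : IsCoprime Qt P := by
    obtain ⟨w, hw⟩ := hQE
    have h1 : P = (Y s + E0) + Qt * w := by rw [← hw]; ring
    rw [h1]
    exact hcop.add_mul_left_right w
  have hcfQ : IsCoprime (f * Qt) P := hcf.mul_left hcQ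
  have hcu : IsCoprime u P := by
    obtain ⟨w, hw⟩ := hdvd
    have h1 : u = f * Qt + w * P := by rw [← hVH]; linear_combination hw
    rw [h1]
    exact hcfQ.add_mul_right_left w
  have hsep : IsCoprime u (derivative u) := by
    rw [hder]
    exact (cop_unit K u 2 h2).mul_right hcu
  have hsq : Squarefree u := Polynomial.Separable.squarefree hsep
  refine ⟨hsq, ?_⟩
  have hPel := hP K hodd u hum hsq
  have hfQm : (f * Qt).Monic := hf.mul hQt
  have hR : R u (derivative u) = A * (algebraMap K (AlgebraicClosure K) c) ^ f.natDegree := by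
    rw [hder, hmR, hRC, hsw K u P hum hPm, hc K P u (f * Qt) (by rw [← hVH]; exact hdvd),
      hsw K P (f * Qt) hPm hfQm, hmL K f Qt P hf.ne_zero hQt.ne_zero, hc K f P (C c) hfE, hRC,
      hc K Qt P (Y s + E0) hQE, hud, hPd, hAdef]
    ring
  rw [hR, hud] at hPel
  have hfin : (A * (algebraMap K (AlgebraicClosure K) c) ^ f.natDegree) ^ hq K =
      B * (-1) ^ Om u := by
    rw [hPel, hBdef, pow_add]
    ring
  rw [mul_pow, ← pow_mul] at hfin
  rw [mul_comm (hq K) f.natDegree]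
  calc ((-1) ^ Om u : AlgebraicClosure K) = B⁻¹ * (B * (-1) ^ Om u) := by
        rw [← mul_assoc, inv_mul_cancel₀ hB0, one_mul]
    _ = A ^ hq K * B⁻¹ *
        (algebraMap K (AlgebraicClosure K) c) ^ (f.natDegree * hq K) := by
        rw [← hfin]; ring

end Pool.Agent.W306.LF
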